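import Pool.Agent.R689.BProd3

/-!
# The minimal Boolean `(m, 0)`-product is not the smallest one

For every infinite cardinal `m` there are a family of two countable Boolean algebras and an
`(m, 0)`-product of the family that is not above the minimal `(m, 0)`-product.
-/

set_option autoImplicit false

namespace Pool.Agent.Results.MP_27bb78_al.MinimalNotSmallest

open Cardinal Pool.Agent.R689.BProd

lemma pair_of_indep {R : Type} [BooleanAlgebra R] (j : Bool → BoundedLatticeHom A R)
    (h : ∀ (T' : Finset Bool) (a : Bool → A), (∀ t ∈ T', a t ≠ ⊥) →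
      T'.inf (fun t => j t (a t)) ≠ ⊥) (c d : A) (hc : c ≠ ⊥) (hd : d ≠ ⊥) :
    j false c ⊓ j true d ≠ ⊥ := by
  have h1 := h {false, true} (fun t => if t then d else c) (by
    intro t _
    cases t
    · exact hc
    · exact hd)
  rwa [Finset.inf_insert, Finset.inf_singleton] at h1

lemma dense_of_minimal {R : Type} [BooleanAlgebra R] (j : Bool → BoundedLatticeHom A R)
    (h : IsMinimal (A := fun _ : Bool => A) j) (b : R) (hb : b ≠ ⊥) :
    ∃ c d : A, j false c ⊓ j true d ≠ ⊥ ∧ j false c ⊓ j true d ≤ b := by
  classical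
  obtain ⟨T', a, h1, h2⟩ := h b hb
  set a' : Bool → A := fun t => if t ∈ T' then a t else ⊤ with ha'
  have h3 : j false (a' false) ⊓ j true (a' true) = T'.inf (fun t => j t (a t)) := by
    apply le_antisymm
    · apply Finset.le_inf
      intro t ht
      have h3 : a' t = a t := if_pos ht
      cases t
      · rw [h3]; exact inf_le_left
      · rw [h3]; exact inf_le_right
    · have h4 : ∀ t, T'.inf (fun t => j t (a t)) ≤ j t (a' t) := by
        intro t
        rw [ha']
        by_cases ht : t ∈ T'
        · simp only [ht, if_true]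
          exact Finset.inf_le (f := fun t => j t (a t)) ht
        · simp only [ht, if_false, map_top]
          exact le_top
      exact le_inf (h4 false) (h4 true)
  exact ⟨a' false, a' true, by rwa [h3], by rwa [h3]⟩

theorem result (m : Cardinal.{0}) (hm : ℵ₀ ≤ m) :
    ∃ (A : Bool → Type) (_ : ∀ t, BooleanAlgebra (A t)),
      (∀ t, Nontrivial (A t)) ∧ (∀ t, Countable (A t)) ∧
      (∃ (M : Type) (_ : BooleanAlgebra M) (j : ∀ t, BoundedLatticeHom (A t) M),
        IsProduct m j ∧ IsMinimal j) ∧
      ∃ (B : Type) (_ : BooleanAlgebra B) (i : ∀ t, BoundedLatticeHom (A t) B),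
        IsProduct m i ∧
        ∀ (M : Type) (_ : BooleanAlgebra M) (j : ∀ t, BoundedLatticeHom (A t) M),
          IsProduct m j → IsMinimal j →
            ¬ ∃ h : BoundedLatticeHom B M, IsMHom m h ∧ ∀ t a, j t a = h (i t a) := by
  refine ⟨fun _ => A, fun _ => inferInstance, fun _ => inferInstance, fun _ => ?_,
    ⟨MM m hm, inferInstance, cod m hm jj, isProduct_M m hm, isMinimal_M m hm⟩,
    BB m hm, inferInstance, cod m hm ii, isProduct_B m hm, ?_⟩
  · exact TopologicalSpace.Clopens.countable_iff_secondCountable.2 inferInstance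
  · rintro M _ j hj hmin ⟨h, hh, hhj⟩
    exact core j (dense_of_minimal j hmin) (pair_of_indep j hj.indep) h hh hhj

end Pool.Agent.Results.MP_27bb78_al.MinimalNotSmallest
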